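import Pool.Agent.Helper76.TH3.StC3

/-!
# Project TH3, module O1H3: odd exponent, the two plane functions of a balanced new symbol

Model: `Pool/Agent/Helper3/TH7/M_O1H7.lean`.
-/

set_option autoImplicit false

namespace Pool.Agent.Helper67.TH3

open Pool.Agent.Helper76.TH3 Pool.Agent.Helper93.TLH
open Pool.Agent.Helper14.CV (Homog EqC act StFar ne_zero_of_det)

/-- the matrix `(a, b; 3c, d)` has coordinates `(x, y)` -/
private def P0 {q : ℕ} (a b c d : ℤ) (x y : ZMod q) : Prop :=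
  HTy a b (3 * c) d ∧ (b : ZMod q) = x * a ∧ (c : ZMod q) = y * d

private lemma P0.pl {q : ℕ} {a b c d : ℤ} {x y : ZMod q} (h : P0 a b c d x y) :
    PlH 0 a b c d x y := by
  refine ⟨?_, h.2⟩
  rw [pow_zero, one_mul]
  exact h.1

private lemma z1 (j : ℕ) : (3 : ZMod (3 ^ (j + 1))) ^ (j + 1) = 0 := by
  have h := ZMod.natCast_self (3 ^ (j + 1))
  push_cast at h
  exact h

/-- `α + 3 γ x` is a unit -/
private lemma un (j : ℕ) {α β γ δ : ℤ} (h : α * δ - 3 * β * γ = 1 ∨ α * δ - 3 * β * γ = 2)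
    (x : ZMod (3 ^ (j + 1))) :
    IsUnit ((α : ZMod (3 ^ (j + 1))) + 3 * γ * x) := by
  obtain ⟨X, rfl⟩ := ZMod.intCast_surjective x
  have : IsUnit (((α + 3 * γ * X : ℤ) : ZMod (3 ^ (j + 1)))) := by
    rw [ZMod.coe_int_isUnit_iff_isCoprime]
    push_cast
    rcases h with h | h
    · exact IsCoprime.pow_left ⟨-(β * γ) - γ * X * δ, δ, by linear_combination h⟩
    · exact IsCoprime.pow_left ⟨-1 - 2 * (β * γ) - 2 * (γ * X * δ), 2 * δ,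
        by linear_combination 2 * h⟩
  push_cast at this
  exact this

private lemma two_unit (j : ℕ) : IsUnit (2 : ZMod (3 ^ (j + 1))) := by
  have := un j (α := 2) (β := 0) (γ := 0) (δ := 1) (Or.inr (by norm_num)) 0
  simpa using this

private lemma exM (hPlA : HPlA3) (j : ℕ) (x y : ZMod (3 ^ (j + 1))) :
    ∃ b c d : ℤ, P0 1 b c d x y := by
  obtain ⟨h1, h2⟩ := hPlA 0 (j + 1) (j + 1) x y
  rw [pow_zero, one_mul] at h1
  exact ⟨_, _, _, h1, h2⟩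

/-- a matrix with upper left entry one is of the first type -/
private lemma sd {q : ℕ} {b c d : ℤ} {x y : ZMod q} (h : P0 1 b c d x y) :
    d - 3 * b * c = 1 ∧ (∃ c', c = 2 * c') ∧ (b : ZMod q) = x ∧ (c : ZMod q) = y * d := by
  obtain ⟨h1, h2, h3⟩ := h
  rw [Int.cast_one, mul_one] at h2
  rcases h1 with ⟨h1, h4⟩ | ⟨-, h4, -, -⟩
  · refine ⟨by linear_combination h1, ?_, h2, h3⟩
    obtain ⟨e, he⟩ : ∃ e, c = 2 * e := ⟨c / 2, by omega⟩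
    exact ⟨e, he⟩
  · exact absurd h4 (by norm_num)

private lemma nz {a b c d : ℤ} (h : HTy a b c d) {u1 u2 : ℤ} (hu : u1 ≠ 0 ∨ u2 ≠ 0) :
    a * u1 + b * u2 ≠ 0 ∨ c * u1 + d * u2 ≠ 0 :=
  ne_zero_of_det (a := a) (b := b) (c := c) (d := d) h.det_ne hu

/-- the matrix `(1 3^j i; 0 1) g` -/
private lemma plT (j : ℕ) (i : ℤ) {b c d : ℤ} {x y : ZMod (3 ^ (j + 1))}
    (h : P0 1 b c d x y) :
    P0 (1 + 3 ^ (j + 1) * i * c) (b + 3 ^ j * i * d) c d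
      (x + (i : ZMod (3 ^ (j + 1))) * 3 ^ j) y := by
  obtain ⟨h1, ⟨c', hc'⟩, h2, h3⟩ := sd h
  have e : (d : ZMod (3 ^ (j + 1))) = 1 + 3 * b * c := by
    have := congrArg (Int.cast : ℤ → ZMod (3 ^ (j + 1))) h1
    push_cast at this
    linear_combination this
  refine ⟨Or.inl ⟨by linear_combination h1, ⟨3 * c', by rw [hc']; ring⟩⟩, ?_, h3⟩
  push_cast
  linear_combination h2 + (i : ZMod (3 ^ (j + 1))) * 3 ^ j * e +
    (i : ZMod (3 ^ (j + 1))) * b * c * z1 j -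
    (x + i * 3 ^ j) * (i : ZMod (3 ^ (j + 1))) * (c : ZMod (3 ^ (j + 1))) * z1 j

/-- the matrix `(1 0; 2 i 3^(j+1) 1) g` -/
private lemma plL (j : ℕ) (i : ℤ) {b c d : ℤ} {x y : ZMod (3 ^ (j + 1))}
    (h : P0 1 b c d x y) :
    P0 1 b (c + 3 ^ j * (2 * i)) (d + 3 ^ (j + 1) * (2 * i) * b) x
      (y + ((2 * i : ℤ) : ZMod (3 ^ (j + 1))) * 3 ^ j) := by
  obtain ⟨h1, ⟨c', hc'⟩, h2, h3⟩ := sd h
  have e : (d : ZMod (3 ^ (j + 1))) = 1 + 3 * b * c := by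
    have := congrArg (Int.cast : ℤ → ZMod (3 ^ (j + 1))) h1
    push_cast at this
    linear_combination this
  refine ⟨Or.inl ⟨by linear_combination h1, ⟨3 * (c' + 3 ^ j * i), by rw [hc']; ring⟩⟩,
    by rw [h2, Int.cast_one, mul_one], ?_⟩
  push_cast
  linear_combination h3 - (2 * i : ZMod (3 ^ (j + 1))) * 3 ^ j * e -
    (2 * i : ZMod (3 ^ (j + 1))) * b * c * z1 j -
    (y + 2 * i * 3 ^ j) * (2 * i : ZMod (3 ^ (j + 1))) * (b : ZMod (3 ^ (j + 1))) * z1 j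

/-- the matrix `g m` -/
private lemma plM {q : ℕ} {b c d α β γ δ : ℤ} {x y x' y' : ZMod q} (h : P0 1 b c d x y)
    (hm : HTy α β (3 * γ) δ)
    (hx : x' * (α + 3 * γ * x) = β + δ * x) (hy : y' * (δ + 3 * β * y) = γ + α * y) :
    P0 (α + 3 * b * γ) (β + b * δ) (c * α + d * γ) (3 * c * β + d * δ) x' y' := by
  obtain ⟨h1, ⟨c', hc'⟩, h2, h3⟩ := sd h
  refine ⟨?_, ?_, ?_⟩
  · rcases hm with ⟨k1, k2⟩ | ⟨k1, k2, k3, k4⟩
    · refine Or.inl ⟨by linear_combination (d - 3 * b * c) * k1 + h1, ?_⟩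
      obtain ⟨e, he⟩ : ∃ e, γ = 2 * e := ⟨γ / 2, by omega⟩
      exact ⟨3 * (c' * α + d * e), by rw [hc', he]; ring⟩
    · obtain ⟨e, he⟩ : ∃ e, γ = 2 * e := ⟨γ / 2, by omega⟩
      obtain ⟨s, hs⟩ := k2
      obtain ⟨t, ht⟩ := k4
      refine Or.inr ⟨by linear_combination (d - 3 * b * c) * k1 + 2 * h1, ?_, ?_, ?_⟩
      · exact ⟨s + 3 * b * e, by rw [he, hs]; ring⟩
      · exact ⟨3 * (c' * α + d * e), by rw [hc', he]; ring⟩
      · exact ⟨3 * c' * β + d * t, by rw [hc', ht]; ring⟩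
  · push_cast
    rw [h2]
    linear_combination -hx
  · push_cast
    rw [h3]
    linear_combination -(d : ZMod q) * hy

section

variable {j : ℕ} {G : ℤ → ℤ → ℂ}

/-- the value of the symbol by any matrix with the given coordinates -/
private lemma ed (hEdg : HEdg3) (hS : SymH 3 (j + 1) (j + 2) G) {u1 u2 v1 v2 : ℤ}
    (hu : u1 ≠ 0 ∨ u2 ≠ 0) (hv : v1 ≠ 0 ∨ v2 ≠ 0) {a b c d : ℤ} {x y : ZMod (3 ^ (j + 1))}
    (h : P0 a b c d x y) :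
    edgeH 0 u1 u2 v1 v2 G x y = G (a * u1 + b * u2) (3 * c * u1 + d * u2) -
      G (a * v1 + b * v2) (3 * c * v1 + d * v2) := by
  have e := hEdg ℂ _ 0 (j + 1) (j + 1) G hS u1 u2 v1 v2 hu hv x y a b c d h.pl
  rw [pow_zero, one_mul] at e
  exact e

private lemma shx (hPlA : HPlA3) (hEdg : HEdg3) (hB : BalOH (j + 1) G) {u1 u2 v1 v2 : ℤ}
    (hu : u1 ≠ 0 ∨ u2 ≠ 0) (hv : v1 ≠ 0 ∨ v2 ≠ 0) (x y : ZMod (3 ^ (j + 1))) :
    ∑ i ∈ Finset.range 3,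
      edgeH 0 u1 u2 v1 v2 G (x + (i : ZMod (3 ^ (j + 1))) * 3 ^ j) y = 0 := by
  obtain ⟨hS, hT, -, -, -⟩ := hB
  obtain ⟨b, c, d, h⟩ := exM hPlA j x y
  have e := hT.diff (nz h.1 hu) (nz h.1 hv)
  simp only [Finset.sum_apply, act, Pi.zero_apply, sub_zero] at e
  rw [← Finset.sum_sub_distrib] at e
  rw [← e]
  refine Finset.sum_congr rfl fun i _ => ?_
  have g := plT j (i : ℤ) h
  rw [Int.cast_natCast] at g
  rw [ed hEdg hS hu hv g]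
  have ej : j + 1 - 1 = j := rfl
  rw [ej]
  congr 1 <;> congr 1 <;> ring

private lemma shy (hPlA : HPlA3) (hEdg : HEdg3) (hB : BalOH (j + 1) G) {u1 u2 v1 v2 : ℤ}
    (hu : u1 ≠ 0 ∨ u2 ≠ 0) (hv : v1 ≠ 0 ∨ v2 ≠ 0) (x y : ZMod (3 ^ (j + 1))) :
    ∑ i ∈ Finset.range 3,
      edgeH 0 u1 u2 v1 v2 G x (y + (i : ZMod (3 ^ (j + 1))) * 3 ^ j) = 0 := by
  obtain ⟨hS, -, hT, -, -⟩ := hB
  obtain ⟨b, c, d, h⟩ := exM hPlA j x y
  have e := hT.diff (nz h.1 hu) (nz h.1 hv)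
  simp only [Finset.sum_apply, act, Pi.zero_apply, sub_zero] at e
  rw [← Finset.sum_sub_distrib] at e
  have e2 : ∑ i ∈ Finset.range 3,
      edgeH 0 u1 u2 v1 v2 G x (y + ((2 * i : ℤ) : ZMod (3 ^ (j + 1))) * 3 ^ j) = 0 := by
    rw [← e]
    refine Finset.sum_congr rfl fun i _ => ?_
    have g := plL j (i : ℤ) h
    rw [ed hEdg hS hu hv g]
    congr 1 <;> congr 1 <;> ring
  have z := z1 j
  have a4 : y + ((4 : ℤ) : ZMod (3 ^ (j + 1))) * 3 ^ j = y + (1 : ZMod (3 ^ (j + 1))) * 3 ^ j := by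
    push_cast
    linear_combination z
  simp only [Finset.sum_range_succ, Finset.sum_range_zero, zero_add] at e2 ⊢
  norm_num at e2 a4 ⊢
  rw [a4] at e2
  linear_combination e2

/-- `G∘b ≈ -G`, `b = (0 1; 6 0)` -/
private lemma bq (hB : BalOH (j + 1) G) {s1 s2 t1 t2 : ℤ} (hs : s1 ≠ 0 ∨ s2 ≠ 0)
    (ht : t1 ≠ 0 ∨ t2 ≠ 0) :
    G s2 (6 * s1) - G t2 (6 * t1) = -(G s1 s2 - G t1 t2) := by
  obtain ⟨-, -, -, hW, hT⟩ := hB
  have hs' : s2 ≠ 0 ∨ 6 * s1 ≠ 0 := by omega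
  have ht' : t2 ≠ 0 ∨ 6 * t1 ≠ 0 := by omega
  have e := hW.diff hs ht
  have f := hT.diff hs' ht'
  simp only [act, Pi.neg_apply, zero_mul, zero_add, neg_mul, one_mul, add_zero] at e f
  linear_combination e - f

private lemma sq (hB : BalOH (j + 1) G) {s1 s2 t1 t2 : ℤ} (hs : s1 ≠ 0 ∨ s2 ≠ 0)
    (ht : t1 ≠ 0 ∨ t2 ≠ 0) :
    G (-s1) s2 - G (-t1) t2 = G s1 s2 - G t1 t2 := by
  obtain ⟨-, -, -, -, hT⟩ := hB
  have f := hT.diff hs ht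
  simp only [act, zero_mul, zero_add, neg_mul, one_mul, add_zero] at f
  exact f

private lemma nsw {s t : ℤ} (h : s ≠ 0 ∨ t ≠ 0) : t ≠ 0 ∨ 6 * s ≠ 0 := by omega

private lemma nng {s t : ℤ} (h : s ≠ 0 ∨ t ≠ 0) : -s ≠ 0 ∨ t ≠ 0 := by omega

/-- conjugation by `b = (0 1; 6 0)` -/
private lemma sw_rw (hPlA : HPlA3) (hEdg : HEdg3) (hB : BalOH (j + 1) G) {u1 u2 v1 v2 : ℤ}
    (hu : u1 ≠ 0 ∨ u2 ≠ 0) (hv : v1 ≠ 0 ∨ v2 ≠ 0) (p : Pt (j + 1)) :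
    edgeH 0 u1 u2 v1 v2 G (swH p).1 (swH p).2 =
      -edgeH 0 u2 (6 * u1) v2 (6 * v1) G p.1 p.2 := by
  obtain ⟨b, c, d, h⟩ := exM hPlA j p.1 p.2
  obtain ⟨h1, ⟨c', hc'⟩, h2, h3⟩ := sd h
  have h' : P0 d c' (2 * b) 1 (swH p).1 (swH p).2 := by
    refine ⟨Or.inl ⟨?_, ⟨3 * b, by ring⟩⟩, ?_, ?_⟩
    · rw [hc'] at h1
      linear_combination h1
    · show (c' : ZMod (3 ^ (j + 1))) = p.2 * (2 : ZMod (3 ^ (j + 1)))⁻¹ * (d : ZMod (3 ^ (j + 1)))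
      have h2' := ZMod.inv_mul_of_unit _ (two_unit j)
      have h3' : (2 : ZMod (3 ^ (j + 1))) * c' = p.2 * d := by
        rw [← h3, hc']
        push_cast
        ring
      linear_combination (2 : ZMod (3 ^ (j + 1)))⁻¹ * h3' - (c' : ZMod (3 ^ (j + 1))) * h2'
    · show ((2 * b : ℤ) : ZMod (3 ^ (j + 1))) = 2 * p.1 * ((1 : ℤ) : ZMod (3 ^ (j + 1)))
      push_cast
      rw [h2, mul_one]
  rw [ed hEdg hB.1 hu hv h', ed hEdg hB.1 (nsw hu) (nsw hv) h]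
  have e := bq hB (nz h'.1 hu) (nz h'.1 hv)
  rw [hc']
  have e1 : ∀ s t : ℤ, 1 * t + b * (6 * s) = 3 * (2 * b) * s + 1 * t := by
    intro s t; ring
  have e2 : ∀ s t : ℤ, 3 * (2 * c') * t + d * (6 * s) = 6 * (d * s + c' * t) := by
    intro s t; ring
  rw [e1, e2, e1, e2]
  linear_combination e

/-- conjugation by `*` -/
private lemma ng_rw (hPlA : HPlA3) (hEdg : HEdg3) (hB : BalOH (j + 1) G) {u1 u2 v1 v2 : ℤ}
    (hu : u1 ≠ 0 ∨ u2 ≠ 0) (hv : v1 ≠ 0 ∨ v2 ≠ 0) (p : Pt (j + 1)) :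
    edgeH 0 u1 u2 v1 v2 G (ng p).1 (ng p).2 = edgeH 0 (-u1) u2 (-v1) v2 G p.1 p.2 := by
  obtain ⟨b, c, d, h⟩ := exM hPlA j p.1 p.2
  obtain ⟨h1, ⟨c', hc'⟩, h2, h3⟩ := sd h
  have h' : P0 1 (-b) (-c) d (ng p).1 (ng p).2 := by
    refine ⟨Or.inl ⟨by linear_combination h1, ⟨-(3 * c'), by rw [hc']; ring⟩⟩, ?_, ?_⟩
    · show ((-b : ℤ) : ZMod (3 ^ (j + 1))) = -p.1 * ((1 : ℤ) : ZMod (3 ^ (j + 1)))
      push_cast
      rw [h2, mul_one]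
    · show ((-c : ℤ) : ZMod (3 ^ (j + 1))) = -p.2 * (d : ZMod (3 ^ (j + 1)))
      push_cast
      rw [h3]
      ring
  rw [ed hEdg hB.1 hu hv h', ed hEdg hB.1 (nng hu) (nng hv) h]
  have e := sq hB (nz h.1 (nng hu)) (nz h.1 (nng hv))
  have e1 : ∀ s t : ℤ, 1 * s + -b * t = -(1 * -s + b * t) := by intro s t; ring
  have e2 : ∀ s t : ℤ, 3 * -c * s + d * t = 3 * c * -s + d * t := by intro s t; ring
  rw [e1, e2, e1, e2]
  exact e

/-- multiplication by a matrix on the right -/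
private lemma rm (hPlA : HPlA3) (hEdg : HEdg3) (hB : BalOH (j + 1) G) {u1 u2 v1 v2 : ℤ}
    (hu : u1 ≠ 0 ∨ u2 ≠ 0) (hv : v1 ≠ 0 ∨ v2 ≠ 0) {α β γ δ : ℤ}
    (hm : HTy α β (3 * γ) δ) (p : Pt (j + 1)) :
    edgeH 0 u1 u2 v1 v2 G (trp 0 α β γ δ p).1 (trp 0 α β γ δ p).2 =
      edgeH 0 (α * u1 + β * u2) (3 * γ * u1 + δ * u2) (α * v1 + β * v2)
        (3 * γ * v1 + δ * v2) G p.1 p.2 := by
  obtain ⟨b, c, d, h⟩ := exM hPlA j p.1 p.2
  have hD : α * δ - 3 * β * γ = 1 ∨ α * δ - 3 * β * γ = 2 := by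
    rcases hm with k | k
    · exact Or.inl (by linear_combination k.1)
    · exact Or.inr (by linear_combination k.1)
  have hD' : δ * α - 3 * γ * β = 1 ∨ δ * α - 3 * γ * β = 2 := by
    rcases hD with k | k
    · exact Or.inl (by linear_combination k)
    · exact Or.inr (by linear_combination k)
  have hx : (trp 0 α β γ δ p).1 * ((α : ZMod (3 ^ (j + 1))) + 3 * γ * p.1) = β + δ * p.1 := by
    have := ZMod.inv_mul_of_unit _ (un j hD p.1)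
    unfold trp
    rw [zero_add, pow_one, mul_assoc, this, mul_one]
  have hy : (trp 0 α β γ δ p).2 * ((δ : ZMod (3 ^ (j + 1))) + 3 * β * p.2) = γ + α * p.2 := by
    have := ZMod.inv_mul_of_unit _ (un j hD' p.2)
    unfold trp
    rw [zero_add, pow_one, mul_assoc, this, mul_one]
  have h' := plM h hm hx hy
  have hu' := nz hm hu
  have hv' := nz hm hv
  rw [ed hEdg hB.1 hu' hv' h, ed hEdg hB.1 hu hv h']
  congr 1 <;> congr 1 <;> ring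

/-- circles: a matrix after `swH` -/
private lemma ci (hPlA : HPlA3) (hEdg : HEdg3) (hB : BalOH (j + 1) G) {α β γ δ : ℤ}
    (hm : HTy α β (3 * γ) δ) {u1 u2 v1 v2 : ℤ}
    (hu : u1 ≠ 0 ∨ u2 ≠ 0) (hv : v1 ≠ 0 ∨ v2 ≠ 0) (p : Pt (j + 1)) :
    edgeH 0 u1 u2 v1 v2 G (trp 0 α β γ δ (swH p)).1 (trp 0 α β γ δ (swH p)).2 =
      -edgeH 0 (3 * γ * u1 + δ * u2) (6 * (α * u1 + β * u2)) (3 * γ * v1 + δ * v2)
        (6 * (α * v1 + β * v2)) G p.1 p.2 := by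
  rw [rm hPlA hEdg hB hu hv hm (swH p)]
  exact sw_rw hPlA hEdg hB (nz hm hu) (nz hm hv) p

/-- reflections: a matrix after `ng` -/
private lemma cn (hPlA : HPlA3) (hEdg : HEdg3) (hB : BalOH (j + 1) G) {α β γ δ : ℤ}
    (hm : HTy α β (3 * γ) δ) {u1 u2 v1 v2 : ℤ}
    (hu : u1 ≠ 0 ∨ u2 ≠ 0) (hv : v1 ≠ 0 ∨ v2 ≠ 0) (p : Pt (j + 1)) :
    edgeH 0 u1 u2 v1 v2 G (trp 0 α β γ δ (ng p)).1 (trp 0 α β γ δ (ng p)).2 =
      edgeH 0 (-(α * u1 + β * u2)) (3 * γ * u1 + δ * u2) (-(α * v1 + β * v2))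
        (3 * γ * v1 + δ * v2) G p.1 p.2 := by
  rw [rm hPlA hEdg hB hu hv hm (ng p)]
  exact ng_rw hPlA hEdg hB (nz hm hu) (nz hm hv) p

private lemma tyO : HTy 2 (-1) (3 * 2) (-2) :=
  Or.inr ⟨by norm_num, by norm_num, by norm_num, by norm_num⟩

private lemma tyR : HTy 1 (-1) (3 * 0) 1 :=
  Or.inl ⟨by norm_num, by norm_num⟩

private lemma cO_rw (hPlA : HPlA3) (hEdg : HEdg3) (hB : BalOH (j + 1) G) {u1 u2 v1 v2 : ℤ}
    (hu : u1 ≠ 0 ∨ u2 ≠ 0) (hv : v1 ≠ 0 ∨ v2 ≠ 0) (p : Pt (j + 1)) :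
    edgeH 0 u1 u2 v1 v2 G (cOH p).1 (cOH p).2 =
      -edgeH 0 (3 * 2 * u1 + -2 * u2) (6 * (2 * u1 + -1 * u2)) (3 * 2 * v1 + -2 * v2)
        (6 * (2 * v1 + -1 * v2)) G p.1 p.2 :=
  ci hPlA hEdg hB tyO hu hv p

private lemma dR_rw (hPlA : HPlA3) (hEdg : HEdg3) (hB : BalOH (j + 1) G) {u1 u2 v1 v2 : ℤ}
    (hu : u1 ≠ 0 ∨ u2 ≠ 0) (hv : v1 ≠ 0 ∨ v2 ≠ 0) (p : Pt (j + 1)) :
    edgeH 0 u1 u2 v1 v2 G (dR 0 p).1 (dR 0 p).2 =
      edgeH 0 (-(1 * u1 + -1 * u2)) (3 * 0 * u1 + 1 * u2) (-(1 * v1 + -1 * v2))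
        (3 * 0 * v1 + 1 * v2) G p.1 p.2 :=
  cn hPlA hEdg hB tyR hu hv p

private lemma memA (hPlA : HPlA3) (hEdg : HEdg3) (hB : BalOH (j + 1) G) {u1 u2 v1 v2 : ℤ}
    (hu : u1 ≠ 0 ∨ u2 ≠ 0) (hv : v1 ≠ 0 ∨ v2 ≠ 0) :
    (fun p : Pt (j + 1) => edgeH 0 u1 u2 v1 v2 G p.1 p.2) ∈ anti3 (j + 1) :=
  fun p => ⟨shx hPlA hEdg hB hu hv p.1 p.2, shy hPlA hEdg hB hu hv p.1 p.2⟩

/-- the value at the cusp `u` -/
private noncomputable def V (G : ℤ → ℤ → ℂ) {m : ℕ} (p : Pt m) (u1 u2 : ℤ) : ℂ :=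
  G (u1 + 3 ^ 0 * (p.1.val : ℤ) * u2)
    (3 * rYH 0 p.1 p.2 * u1 + (1 + 3 ^ (0 + 1) * (p.1.val : ℤ) * rYH 0 p.1 p.2) * u2)

private lemma eV {m : ℕ} (p : Pt m) (u1 u2 v1 v2 : ℤ) :
    edgeH 0 u1 u2 v1 v2 G p.1 p.2 = V G p u1 u2 - V G p v1 v2 := rfl

private lemma Vsc (hPlA : HPlA3) (hB : BalOH (j + 1) G) (p : Pt (j + 1)) (k : ℤ) (hk : k ≠ 0)
    (u1 u2 : ℤ) (hu : u1 ≠ 0 ∨ u2 ≠ 0) : V G p (k * u1) (k * u2) = V G p u1 u2 := by
  have h := nz (hPlA 0 (j + 1) (j + 1) p.1 p.2).1 hu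
  have e := hB.1.1 k _ _ hk h
  unfold V
  have e1 : k * u1 + 3 ^ 0 * (p.1.val : ℤ) * (k * u2) = k * (1 * u1 + 3 ^ 0 * (p.1.val : ℤ) * u2) := by
    ring
  have e2 : 3 * rYH 0 p.1 p.2 * (k * u1) + (1 + 3 ^ (0 + 1) * (p.1.val : ℤ) * rYH 0 p.1 p.2) * (k * u2)
      = k * (3 * rYH 0 p.1 p.2 * u1 + (1 + 3 ^ (0 + 1) * (p.1.val : ℤ) * rYH 0 p.1 p.2) * u2) := by
    ring
  rw [e1, e2, e, one_mul]

private lemma relf (hPlA : HPlA3) (hEdg : HEdg3) (hB : BalOH (j + 1) G) (p : Pt (j + 1)) :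
    edgeH 0 1 0 0 1 G (ng p).1 (ng p).2 = 1 * edgeH 0 1 0 0 1 G p.1 p.2 ∧
    edgeH 0 1 0 0 1 G (swH p).1 (swH p).2 = 1 * edgeH 0 1 0 0 1 G p.1 p.2 := by
  rw [ng_rw hPlA hEdg hB (by norm_num) (by norm_num) p,
    sw_rw hPlA hEdg hB (by norm_num) (by norm_num) p]
  simp only [eV]
  have s := Vsc hPlA hB p
  have a1 := s (-1) (by norm_num) 1 0 (by norm_num)
  have a2 := s 6 (by norm_num) 0 1 (by norm_num)
  norm_num at a1 a2 ⊢
  rw [a1, a2]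
  exact ⟨rfl, by ring⟩

private lemma rell (hPlA : HPlA3) (hEdg : HEdg3) (hB : BalOH (j + 1) G) (p : Pt (j + 1)) :
    edgeH 0 1 0 1 2 G (dR 0 p).1 (dR 0 p).2 = 1 * edgeH 0 1 0 1 2 G p.1 p.2 ∧
    edgeH 0 1 0 1 2 G (cOH p).1 (cOH p).2 = 1 * edgeH 0 1 0 1 2 G p.1 p.2 := by
  rw [dR_rw hPlA hEdg hB (by norm_num) (by norm_num) p,
    cO_rw hPlA hEdg hB (by norm_num) (by norm_num) p]
  simp only [eV]
  have s := Vsc hPlA hB p
  have a1 := s (-1) (by norm_num) 1 0 (by norm_num)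
  have a2 := s 6 (by norm_num) 1 2 (by norm_num)
  have a3 := s 2 (by norm_num) 1 0 (by norm_num)
  norm_num at a1 a2 a3 ⊢
  rw [a1, a2, a3]
  exact ⟨rfl, by ring⟩

private lemma relR (hPlA : HPlA3) (hEdg : HEdg3) (hB : BalOH (j + 1) G) (p : Pt (j + 1)) :
    (edgeH 0 1 0 0 1 G p.1 p.2 - edgeH 0 1 0 1 2 G p.1 p.2) +
      (edgeH 0 1 0 0 1 G (swH (cOH p)).1 (swH (cOH p)).2 -
        edgeH 0 1 0 1 2 G (swH (cOH p)).1 (swH (cOH p)).2) = 0 := by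
  rw [sw_rw hPlA hEdg hB (by norm_num) (by norm_num) (cOH p),
    sw_rw hPlA hEdg hB (by norm_num) (by norm_num) (cOH p),
    cO_rw hPlA hEdg hB (by norm_num) (by norm_num) p,
    cO_rw hPlA hEdg hB (by norm_num) (by norm_num) p]
  simp only [eV]
  have s := Vsc hPlA hB p
  have a2 := s 6 (by norm_num) 1 2 (by norm_num)
  have a3 := s (-12) (by norm_num) 0 1 (by norm_num)
  norm_num at a2 a3 ⊢
  rw [a2, a3]
  ring

private lemma memO (hPlA : HPlA3) (hEdg : HEdg3) (hB : BalOH (j + 1) G) :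
    ((fun p : Pt (j + 1) => edgeH 0 1 0 0 1 G p.1 p.2),
      (fun p : Pt (j + 1) => edgeH 0 1 0 1 2 G p.1 p.2)) ∈ subOH (j + 1) :=
  ⟨⟨memA hPlA hEdg hB (by norm_num) (by norm_num), fun p => relf hPlA hEdg hB p⟩,
    ⟨memA hPlA hEdg hB (by norm_num) (by norm_num), fun p => rell hPlA hEdg hB p⟩,
    fun p => relR hPlA hEdg hB p⟩

end

/-! ### Injectivity -/

/-- a diagonal entry is a unit -/
private lemma ut (j : ℕ) {a d b c e : ℤ} (h : a * d - b * (3 * c) = e)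
    (he : e = 1 ∨ e = 2) : IsUnit (a : ZMod (3 ^ (j + 1))) := by
  rw [ZMod.coe_int_isUnit_iff_isCoprime]
  push_cast
  apply IsCoprime.pow_left
  rcases he with rfl | rfl
  · exact ⟨-(b * c), d, by linear_combination h⟩
  · exact ⟨-2 * (b * c) - 1, 2 * d, by linear_combination 2 * h⟩

/-- every matrix has coordinates -/
private lemma exPl (j : ℕ) {a b c d : ℤ} (h : HTy a b (3 * c) d) :
    ∃ x y : ZMod (3 ^ (j + 1)), P0 a b c d x y := by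
  have he : ∃ e, a * d - b * (3 * c) = e ∧ (e = 1 ∨ e = 2) := by
    rcases h with h | h
    · exact ⟨1, by linear_combination h.1, Or.inl rfl⟩
    · exact ⟨2, by linear_combination h.1, Or.inr rfl⟩
  obtain ⟨e, h1, h2⟩ := he
  have ha := ut j h1 h2
  have hd := ut j (a := d) (d := a) (b := b) (c := c) (e := e) (by linear_combination h1) h2
  refine ⟨b * (a : ZMod (3 ^ (j + 1)))⁻¹, c * (d : ZMod (3 ^ (j + 1)))⁻¹, h, ?_, ?_⟩
  · rw [mul_assoc, ZMod.inv_mul_of_unit _ ha, mul_one]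
  · rw [mul_assoc, ZMod.inv_mul_of_unit _ hd, mul_one]

/-- the symmetries of the potential -/
private structure Inv (G : ℤ → ℤ → ℂ) : Prop where
  hom : Homog G
  st : ∀ x y z w : ℤ, (x ≠ 0 ∨ y ≠ 0) → (z ≠ 0 ∨ w ≠ 0) → G (-x) y - G (-z) w = G x y - G z w
  sw : ∀ x y z w : ℤ, (x ≠ 0 ∨ y ≠ 0) → (z ≠ 0 ∨ w ≠ 0) →
    G y (6 * x) - G w (6 * z) = -(G x y - G z w)

/-- the two vectors have equal values for all matrices -/
private def W (G : ℤ → ℤ → ℂ) (u1 u2 v1 v2 : ℤ) : Prop :=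
  (u1 ≠ 0 ∨ u2 ≠ 0) ∧ (v1 ≠ 0 ∨ v2 ≠ 0) ∧ ∀ a b c d : ℤ, HTy a b (3 * c) d →
    G (a * u1 + b * u2) (3 * c * u1 + d * u2) = G (a * v1 + b * v2) (3 * c * v1 + d * v2)

section

variable {G : ℤ → ℤ → ℂ}

private lemma W.tr {u1 u2 v1 v2 w1 w2 : ℤ} (h : W G u1 u2 v1 v2) (h' : W G v1 v2 w1 w2) :
    W G u1 u2 w1 w2 :=
  ⟨h.1, h'.2.1, fun a b c d hT => (h.2.2 a b c d hT).trans (h'.2.2 a b c d hT)⟩

private lemma W.sy {u1 u2 v1 v2 : ℤ} (h : W G u1 u2 v1 v2) : W G v1 v2 u1 u2 :=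
  ⟨h.2.1, h.1, fun a b c d hT => (h.2.2 a b c d hT).symm⟩

/-- scaling -/
private lemma W.sc (hI : Inv G) {s1 s2 t1 t2 : ℤ} (h : W G s1 s2 t1 t2) (k l : ℤ)
    {u1 u2 v1 v2 : ℤ} (hs : k ≠ 0 ∧ l ≠ 0 ∧ s1 = k * u1 ∧ s2 = k * u2 ∧ t1 = l * v1 ∧
      t2 = l * v2) : W G u1 u2 v1 v2 := by
  obtain ⟨hk, hl, rfl, rfl, rfl, rfl⟩ := hs
  obtain ⟨h1, h2, h3⟩ := h
  have hu : u1 ≠ 0 ∨ u2 ≠ 0 := by
    rcases h1 with h | h
    · exact Or.inl (right_ne_zero_of_mul h)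
    · exact Or.inr (right_ne_zero_of_mul h)
  have hv : v1 ≠ 0 ∨ v2 ≠ 0 := by
    rcases h2 with h | h
    · exact Or.inl (right_ne_zero_of_mul h)
    · exact Or.inr (right_ne_zero_of_mul h)
  refine ⟨hu, hv, fun a b c d hT => ?_⟩
  have e := h3 a b c d hT
  have f1 := hI.hom k _ _ hk (nz hT hu)
  have f2 := hI.hom l _ _ hl (nz hT hv)
  rw [← f1, ← f2]
  calc _ = _ := by congr 1 <;> ring
    _ = _ := e
    _ = _ := by congr 1 <;> ring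

private lemma neq {x y : ℤ} (h : x ≠ 0 ∨ y ≠ 0) : -x ≠ 0 ∨ y ≠ 0 := by omega

private lemma swq' {x y : ℤ} (h : x ≠ 0 ∨ y ≠ 0) : -y ≠ 0 ∨ 6 * x ≠ 0 := by omega

private lemma swq {x y : ℤ} (h : x ≠ 0 ∨ y ≠ 0) : y ≠ 0 ∨ 6 * x ≠ 0 := by omega

/-- conjugation by `*` -/
private lemma W.st (hI : Inv G) {u1 u2 v1 v2 : ℤ} (h : W G u1 u2 v1 v2) :
    W G (-u1) u2 (-v1) v2 := by
  refine ⟨neq h.1, neq h.2.1, fun a b c d hT => ?_⟩
  have hT' : HTy a (-b) (3 * -c) d := by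
    rcases hT with ⟨h1, h2⟩ | ⟨h1, h2, h3, h4⟩
    · exact Or.inl ⟨by linear_combination h1, by omega⟩
    · exact Or.inr ⟨by linear_combination h1, h2, by omega, h4⟩
  have e := hI.st _ _ _ _ (nz hT' h.1) (nz hT' h.2.1)
  rw [h.2.2 _ _ _ _ hT', sub_self] at e
  have e' := sub_eq_zero.1 e
  calc _ = _ := by congr 1 <;> ring
    _ = _ := e'
    _ = _ := by congr 1 <;> ring

/-- conjugation by `b` -/
private lemma W.sw (hI : Inv G) {u1 u2 v1 v2 : ℤ} (h : W G u1 u2 v1 v2) :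
    W G u2 (6 * u1) v2 (6 * v1) := by
  refine ⟨swq h.1, swq h.2.1, fun a b c d hT => ?_⟩
  obtain ⟨c', rfl⟩ : ∃ c', c = 2 * c' := by
    rcases hT with ⟨h1, h2⟩ | ⟨h1, h2, h3, h4⟩
    · exact ⟨c / 2, by omega⟩
    · exact ⟨c / 2, by omega⟩
  have hT' : HTy d c' (3 * (2 * b)) a := by
    rcases hT with ⟨h1, h2⟩ | ⟨h1, h2, h3, h4⟩
    · exact Or.inl ⟨by linear_combination h1, by omega⟩
    · exact Or.inr ⟨by linear_combination h1, h4, by omega, h2⟩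
  have e := hI.sw _ _ _ _ (nz hT' h.1) (nz hT' h.2.1)
  rw [h.2.2 _ _ _ _ hT', sub_self, neg_zero] at e
  have e' := sub_eq_zero.1 e
  calc _ = _ := by congr 1 <;> ring
    _ = _ := e'
    _ = _ := by congr 1 <;> ring

/-- multiplication by a matrix on the right -/
private lemma W.rm (hI : Inv G) {u1 u2 v1 v2 : ℤ} (h : W G u1 u2 v1 v2) (α β γ δ : ℤ)
    (hm : HTy α β (3 * γ) δ) :
    W G (α * u1 + β * u2) (3 * γ * u1 + δ * u2) (α * v1 + β * v2)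
      (3 * γ * v1 + δ * v2) := by
  refine ⟨nz hm h.1, nz hm h.2.1, fun a b c d hT => ?_⟩
  obtain ⟨k, a', b', c', d', hk, hT', e1, e2, e3, e4⟩ : ∃ k a' b' c' d' : ℤ, k ≠ 0 ∧
      HTy a' b' (3 * c') d' ∧ a * α + 3 * b * γ = k * a' ∧ a * β + b * δ = k * b' ∧
      c * α + d * γ = k * c' ∧ 3 * c * β + d * δ = k * d' := by
    rcases hT with ⟨h1, h2⟩ | ⟨h1, h2, h3, h4⟩
    · rcases hm with ⟨g1, g2⟩ | ⟨g1, g2, g3, g4⟩
      · refine ⟨1, a * α + 3 * b * γ, a * β + b * δ, c * α + d * γ, 3 * c * β + d * δ,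
          one_ne_zero, Or.inl ⟨?_, ?_⟩, by ring, by ring, by ring, by ring⟩
        · linear_combination (α * δ - β * (3 * γ)) * h1 + g1
        · obtain ⟨c', rfl⟩ : ∃ c', c = 2 * c' := ⟨c / 2, by omega⟩
          obtain ⟨γ', rfl⟩ : ∃ γ', γ = 2 * γ' := ⟨γ / 2, by omega⟩
          exact ⟨3 * (c' * α + d * γ'), by ring⟩
      · refine ⟨1, a * α + 3 * b * γ, a * β + b * δ, c * α + d * γ, 3 * c * β + d * δ,
          one_ne_zero, Or.inr ?_, by ring, by ring, by ring, by ring⟩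
        obtain ⟨c', rfl⟩ : ∃ c', c = 2 * c' := ⟨c / 2, by omega⟩
        obtain ⟨γ', rfl⟩ : ∃ γ', γ = 2 * γ' := ⟨γ / 2, by omega⟩
        obtain ⟨α', rfl⟩ := g2
        obtain ⟨δ', rfl⟩ := g4
        refine ⟨?_, ⟨a * α' + 3 * b * γ', by ring⟩, ⟨3 * (c' * (2 * α') + d * γ'), by ring⟩,
          ⟨3 * c' * β + d * δ', by ring⟩⟩
        linear_combination (2 * α' * (2 * δ') - β * (3 * (2 * γ'))) * h1 + g1
    · rcases hm with ⟨g1, g2⟩ | ⟨g1, g2, g3, g4⟩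
      · refine ⟨1, a * α + 3 * b * γ, a * β + b * δ, c * α + d * γ, 3 * c * β + d * δ,
          one_ne_zero, Or.inr ?_, by ring, by ring, by ring, by ring⟩
        obtain ⟨c', rfl⟩ : ∃ c', c = 2 * c' := ⟨c / 2, by omega⟩
        obtain ⟨γ', rfl⟩ : ∃ γ', γ = 2 * γ' := ⟨γ / 2, by omega⟩
        obtain ⟨a', rfl⟩ := h2
        obtain ⟨d', rfl⟩ := h4
        refine ⟨?_, ⟨a' * α + 3 * b * γ', by ring⟩, ⟨3 * (c' * α + 2 * d' * γ'), by ring⟩,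
          ⟨3 * c' * β + d' * δ, by ring⟩⟩
        linear_combination (α * δ - β * (3 * (2 * γ'))) * h1 + 2 * g1
      · obtain ⟨c', rfl⟩ : ∃ c', c = 2 * c' := ⟨c / 2, by omega⟩
        obtain ⟨γ', rfl⟩ : ∃ γ', γ = 2 * γ' := ⟨γ / 2, by omega⟩
        obtain ⟨α', rfl⟩ := g2
        obtain ⟨δ', rfl⟩ := g4
        obtain ⟨a', rfl⟩ := h2
        obtain ⟨d', rfl⟩ := h4
        refine ⟨2, a' * (2 * α') + 3 * b * γ', a' * β + b * δ', c' * (2 * α') + d' * (2 * γ'),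
          3 * c' * β + d' * (2 * δ'), two_ne_zero, Or.inl ⟨?_, ?_⟩, by ring, by ring, by ring,
          by ring⟩
        · have e : (4 : ℤ) * ((a' * (2 * α') + 3 * b * γ') * (3 * c' * β + d' * (2 * δ')) -
              (a' * β + b * δ') * (3 * (c' * (2 * α') + d' * (2 * γ')))) = 4 * 1 := by
            linear_combination (2 * α' * (2 * δ') - β * (3 * (2 * γ'))) * h1 + 2 * g1
          exact mul_left_cancel₀ four_ne_zero e
        · exact ⟨3 * (c' * α' + d' * γ'), by ring⟩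
  have e := h.2.2 _ _ _ _ hT'
  have f1 := hI.hom k _ _ hk (nz hT' h.1)
  have f2 := hI.hom k _ _ hk (nz hT' h.2.1)
  rw [← f1, ← f2] at e
  have q1 : ∀ s t : ℤ, a * (α * s + β * t) + b * (3 * γ * s + δ * t) =
      k * (a' * s + b' * t) := by
    intro s t
    linear_combination s * e1 + t * e2
  have q2 : ∀ s t : ℤ, 3 * c * (α * s + β * t) + d * (3 * γ * s + δ * t) =
      k * (3 * c' * s + d' * t) := by
    intro s t
    linear_combination 3 * s * e3 + t * e4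
  rw [q1, q1, q2, q2]
  exact e

/-- one edge: the matrix is `g ρ`, `ρ = (r1 r2; r3 r4)` -/
private lemma one {r1 r2 r3 r4 : ℤ} (hr : r1 * r4 - r2 * r3 = 1) (hW : W G r1 r3 r2 r4)
    {p q r s : ℤ} (h : p * s - q * r = 1) (e2 : (6 : ℤ) ∣ r * r4 - s * r3) : G p r = G q s := by
  obtain ⟨c, hc⟩ := e2
  have hT : HTy (p * r4 - q * r3) (q * r1 - p * r2) (3 * (2 * c)) (s * r1 - r * r2) := by
    refine Or.inl ⟨?_, ⟨3 * c, by ring⟩⟩
    linear_combination (p * s - q * r) * hr + h + (q * r1 - p * r2) * hc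
  have e := hW.2.2 _ _ _ _ hT
  have g1 : (p * r4 - q * r3) * r1 + (q * r1 - p * r2) * r3 = p := by
    linear_combination p * hr
  have g2 : 3 * (2 * c) * r1 + (s * r1 - r * r2) * r3 = r := by
    linear_combination r * hr - r1 * hc
  have g3 : (p * r4 - q * r3) * r2 + (q * r1 - p * r2) * r4 = q := by
    linear_combination q * hr
  have g4 : 3 * (2 * c) * r2 + (s * r1 - r * r2) * r4 = s := by
    linear_combination s * hr - r2 * hc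
  rw [g1, g2, g3, g4] at e
  exact e

/-- absolute values of the cusps -/
private def Cu : List (ℕ × ℕ) := [(1, 0), (0, 1), (1, 1), (1, 2), (2, 3)]

private lemma W.ng (hI : Inv G) {x y : ℤ} (h : W G 1 0 x y) : W G 1 0 (-x) (-y) :=
  h.sc hI 1 (-1) ⟨by norm_num, by norm_num, by norm_num, by norm_num, by ring, by ring⟩

private lemma W.mi (hI : Inv G) {x y : ℤ} (h : W G 1 0 x y) : W G 1 0 (-x) y :=
  (h.st hI).sc hI (-1) 1 ⟨by norm_num, by norm_num, by norm_num, by norm_num, by ring, by ring⟩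

/-- the cusps are equivalent to `∞` -/
private lemma cusps (hI : Inv G) (h1 : W G 1 0 0 1) (h2 : W G 1 0 1 2) :
    ∀ c ∈ Cu, W G 1 0 (c.1 : ℤ) (c.2 : ℤ) := by
  have q10 : W G 1 0 1 0 := h1.tr h1.sy
  have mT : HTy 1 (-1) (3 * 0) 1 := Or.inl (by decide)
  have q11 : W G 1 0 1 1 := by
    have : W G 1 0 (-1) 1 := (h1.rm hI _ _ _ _ mT).sc hI 1 1 (by norm_num)
    exact (this.mi hI).sc hI 1 1 (by norm_num)
  have q23 : W G 1 0 2 3 := by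
    have e1 : W G 1 0 1 3 := ((h1.sy.tr h2).sw hI).sc hI 1 2 (by norm_num)
    have e2 : W G 1 0 (-2) 3 := (e1.rm hI _ _ _ _ mT).sc hI 1 1 (by norm_num)
    exact (e2.mi hI).sc hI 1 1 (by norm_num)
  intro c hc
  simp only [Cu, List.mem_cons, List.not_mem_nil, or_false] at hc
  rcases hc with rfl | rfl | rfl | rfl | rfl
  all_goals simp only [Nat.cast_one, Nat.cast_zero, Nat.cast_ofNat]; assumption

private lemma abs_cusp (hI : Inv G) (h : ∀ c ∈ Cu, W G 1 0 (c.1 : ℤ) (c.2 : ℤ)) {x y : ℤ}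
    (hc : (x.natAbs, y.natAbs) ∈ Cu) : W G 1 0 x y := by
  have e : W G 1 0 (x.natAbs : ℤ) (y.natAbs : ℤ) := h _ hc
  rcases Int.natAbs_eq x with hx | hx <;> rcases Int.natAbs_eq y with hy | hy <;> rw [hx, hy]
  · exact e
  · have := (e.ng hI).mi hI
    rwa [neg_neg] at this
  · exact e.mi hI
  · exact e.ng hI

end

private lemma ok : ∀ t ∈ LHO, t.1 * t.2.2.2 - t.2.1 * t.2.2.1 = 1 ∧
    (t.1.natAbs, t.2.2.1.natAbs) ∈ Cu ∧ (t.2.1.natAbs, t.2.2.2.natAbs) ∈ Cu := by decide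

set_option maxRecDepth 100000 in
private lemma cls : ∀ r s : ZMod 6, (3 * r ≠ 0 ∨ 3 * s ≠ 0) → (2 * r ≠ 0 ∨ 2 * s ≠ 0) →
    ∃ t ∈ LHO, r * (t.2.2.2 : ZMod 6) - s * (t.2.2.1 : ZMod 6) = 0 := by decide

/-- the representative of a matrix -/
private lemma rep {p q r s : ℤ} (h : p * s - q * r = 1) : ∃ t ∈ LHO,
    (6 : ℤ) ∣ r * t.2.2.2 - s * t.2.2.1 := by
  have hc : (p : ZMod 6) * s - q * r = 1 := by
    have h' := congrArg (Int.cast : ℤ → ZMod 6) h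
    push_cast at h'
    exact h'
  have h7 : 3 * (r : ZMod 6) ≠ 0 ∨ 3 * (s : ZMod 6) ≠ 0 := by
    by_contra hn
    push Not at hn
    obtain ⟨n1, n2⟩ := hn
    have : (3 : ZMod 6) = 0 := by
      linear_combination -3 * hc + (p : ZMod 6) * n2 - (q : ZMod 6) * n1
    exact absurd this (by decide)
  have h2 : 2 * (r : ZMod 6) ≠ 0 ∨ 2 * (s : ZMod 6) ≠ 0 := by
    by_contra hn
    push Not at hn
    obtain ⟨n1, n2⟩ := hn
    have : (2 : ZMod 6) = 0 := by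
      linear_combination -2 * hc + (p : ZMod 6) * n2 - (q : ZMod 6) * n1
    exact absurd this (by decide)
  obtain ⟨t, ht, e⟩ := cls _ _ h7 h2
  refine ⟨t, ht, (ZMod.intCast_zmod_eq_zero_iff_dvd _ 6).1 ?_⟩
  push_cast
  exact e

/-- Module O1H3. -/
theorem hO1H3 : StHO13 := by
  intro he ha _ hfar k G hk hB
  obtain ⟨j, rfl⟩ : ∃ j, k = j + 1 := ⟨k - 1, by omega⟩
  refine ⟨memO ha he hB, fun hz => ?_⟩
  have hI : Inv G := ⟨hB.1.1, fun x y z w h1 h2 => sq hB h1 h2, fun x y z w h1 h2 => bq hB h1 h2⟩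
  have key : ∀ u1 u2 v1 v2 : ℤ, (u1 ≠ 0 ∨ u2 ≠ 0) → (v1 ≠ 0 ∨ v2 ≠ 0) →
      (∀ x y : ZMod (3 ^ (j + 1)), edgeH 0 u1 u2 v1 v2 G x y = 0) → W G u1 u2 v1 v2 := by
    intro u1 u2 v1 v2 hu hv h0
    refine ⟨hu, hv, fun a b c d hg => ?_⟩
    obtain ⟨x, y, hp⟩ := exPl j hg
    have e := ed he hB.1 hu hv hp
    rw [h0 x y] at e
    exact (sub_eq_zero.1 e.symm)
  have h1 : W G 1 0 0 1 := key 1 0 0 1 (by norm_num) (by norm_num) fun x y => (hz x y).1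
  have h2 : W G 1 0 1 2 := key 1 0 1 2 (by norm_num) (by norm_num) fun x y => (hz x y).2
  have hC := cusps hI h1 h2
  refine hfar ℂ _ G hB.1.1 fun p q r s h => ?_
  obtain ⟨t, ht, d1⟩ := rep h
  obtain ⟨f1, f2, f3⟩ := ok t ht
  exact one f1 ((abs_cusp hI hC f2).sy.tr (abs_cusp hI hC f3)) h d1

end Pool.Agent.Helper67.TH3
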